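import Mathlib

/-!
# The group of compactly supported symplectomorphisms of `ℝ^{2n}`

The compactly supported symplectomorphisms of a normed space `V` with a symplectic form `Ω`, and
the direct limit of the `C^∞` topologies on the subgroups with support in a compact set; the
standard symplectic form of `ℝ^{2n}`.
-/

set_option autoImplicit false

open Set Topology
open scoped ContDiff

noncomputable section

namespace Pool.Agent.Helper546_sympct

/-- `ℝ^{2n}`, with coordinates `x_i = v (inl i)` and `y_i = v (inr i)` -/
abbrev R2 (n : ℕ) : Type := EuclideanSpace ℝ (Fin n ⊕ Fin n)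

/-- the standard symplectic form `∑ dx_i ∧ dy_i` of `ℝ^{2n}` -/
def om (n : ℕ) (v w : R2 n) : ℝ :=
  ∑ i, (v (Sum.inl i) * w (Sum.inr i) - v (Sum.inr i) * w (Sum.inl i))

section defs

variable {V : Type} [NormedAddCommGroup V] [NormedSpace ℝ V]

/-- the compactly supported symplectomorphisms of `(V, Ω)`: the bijections of `V`, smooth with
smooth inverse, which preserve `Ω` and are the identity outside a compact set -/
structure SympCt (Ω : V → V → ℝ) where
  /-- the bijection -/
  toEquiv : V ≃ V
  smooth : ContDiff ℝ ∞ toEquiv
  smooth_symm : ContDiff ℝ ∞ toEquiv.symm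
  symplectic : ∀ z v w, Ω (fderiv ℝ toEquiv z v) (fderiv ℝ toEquiv z w) = Ω v w
  compact_support : ∃ K : Set V, IsCompact K ∧ ∀ z, z ∉ K → toEquiv z = z

/-- the `j`-th derivative of a compactly supported symplectomorphism, as a continuous map -/
def jet {Ω : V → V → ℝ} (j : ℕ) (φ : SympCt Ω) : C(V, V [×j]→L[ℝ] V) :=
  ⟨fun z => iteratedFDeriv ℝ j φ.toEquiv z, φ.smooth.continuous_iteratedFDeriv (by
    exact_mod_cast (le_top : (j : ℕ∞) ≤ ⊤))⟩

/-- the compactly supported symplectomorphisms which are the identity outside `K` -/
def SuppIn (Ω : V → V → ℝ) (K : Set V) : Type :=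
  {φ : SympCt Ω // ∀ z, z ∉ K → φ.toEquiv z = z}

/-- the `C^∞` topology on the symplectomorphisms which are the identity outside `K`: the coarsest
topology for which all derivatives depend continuously on the map, in the topology of uniform
convergence on compact sets -/
instance smoothTopology (Ω : V → V → ℝ) (K : Set V) : TopologicalSpace (SuppIn Ω K) :=
  ⨅ j : ℕ, TopologicalSpace.induced (fun φ => jet j φ.1) ContinuousMap.compactOpen

/-- the direct limit topology: the finest topology for which the inclusions of the groups of
symplectomorphisms which are the identity outside a compact set `K` are continuous -/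
instance directLimitTopology (Ω : V → V → ℝ) : TopologicalSpace (SympCt Ω) :=
  ⨆ K : {K : Set V // IsCompact K},
    TopologicalSpace.coinduced (fun φ : SuppIn Ω K.1 => φ.1) (smoothTopology Ω K.1)

/-- the identity map -/
def idSymp (Ω : V → V → ℝ) : SympCt Ω where
  toEquiv := Equiv.refl _
  smooth := contDiff_id
  smooth_symm := contDiff_id
  symplectic := fun z v w => by
    rw [show ((Equiv.refl V : V ≃ V) : V → V) = id from rfl, fderiv_id]
    rfl
  compact_support := ⟨∅, isCompact_empty, fun _ _ => rfl⟩

end defs

end Pool.Agent.Helper546_sympct
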