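import Mathlib

/-!
# Continuous families of smooth maps

`CFam m f` : the family `f t`, `t ∈ T`, of maps between normed spaces consists of `C^m` maps and all
derivatives of order at most `m` are jointly continuous.
-/

set_option autoImplicit false

open Set Filter Topology
open scoped ContDiff

noncomputable section

namespace Pool.Agent.Helper546_sympct

variable {T : Type} [TopologicalSpace T]
variable {E : Type} [NormedAddCommGroup E] [NormedSpace ℝ E]
variable {F : Type} [NormedAddCommGroup F] [NormedSpace ℝ F]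
variable {G : Type} [NormedAddCommGroup G] [NormedSpace ℝ G]

/-- a family of `C^m` maps with jointly continuous derivatives -/
def CFam (m : ℕ) (f : T → E → F) : Prop :=
  (∀ t, ContDiff ℝ m (f t)) ∧
    ∀ j : ℕ, j ≤ m → Continuous fun p : T × E => iteratedFDeriv ℝ j (f p.1) p.2

theorem cfam_zero_iff {f : T → E → F} : CFam 0 f ↔ Continuous fun p : T × E => f p.1 p.2 := by
  constructor
  · rintro ⟨-, h⟩
    have h0 := h 0 le_rfl
    have : (fun p : T × E => f p.1 p.2) = fun p : T × E =>
        (continuousMultilinearCurryFin0 ℝ E F) (iteratedFDeriv ℝ 0 (f p.1) p.2) := by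
      funext p
      simp
    rw [this]
    exact (LinearIsometryEquiv.continuous _).comp h0
  · intro h
    refine ⟨fun t => ?_, fun j hj => ?_⟩
    · have : Continuous (f t) := h.comp (Continuous.prodMk_right t)
      exact_mod_cast contDiff_zero.2 this
    · obtain rfl : j = 0 := by omega
      have : (fun p : T × E => iteratedFDeriv ℝ 0 (f p.1) p.2) = fun p : T × E =>
          (continuousMultilinearCurryFin0 ℝ E F).symm (f p.1 p.2) := by
        funext p
        rw [iteratedFDeriv_zero_eq_comp]
        rfl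
      rw [this]
      exact (LinearIsometryEquiv.continuous _).comp h

theorem CFam.continuous {m : ℕ} {f : T → E → F} (h : CFam m f) :
    Continuous fun p : T × E => f p.1 p.2 := by
  rw [← cfam_zero_iff]
  refine ⟨fun t => (h.1 t).of_le (by simp), fun j hj => h.2 j (by omega)⟩

theorem CFam.of_le {m k : ℕ} {f : T → E → F} (h : CFam m f) (hk : k ≤ m) : CFam k f :=
  ⟨fun t => (h.1 t).of_le (by exact_mod_cast hk), fun j hj => h.2 j (hj.trans hk)⟩

theorem cfam_succ_iff {m : ℕ} {f : T → E → F} :
    CFam (m + 1) f ↔ (Continuous fun p : T × E => f p.1 p.2) ∧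
      (∀ t, Differentiable ℝ (f t)) ∧ CFam m (fun t => fderiv ℝ (f t)) := by
  constructor
  · intro h
    refine ⟨h.continuous, fun t => (h.1 t).differentiable (by simp), fun t => ?_, fun j hj => ?_⟩
    · have := h.1 t
      rw [show ((m + 1 : ℕ) : ℕ∞ω) = (m : ℕ∞ω) + 1 by push_cast; rfl,
        contDiff_succ_iff_fderiv] at this
      exact this.2.2
    · have h1 := h.2 (j + 1) (by omega)
      have : (fun p : T × E => iteratedFDeriv ℝ j (fderiv ℝ (f p.1)) p.2) = fun p : T × E =>
          (continuousMultilinearCurryRightEquiv' ℝ j E F)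
            (iteratedFDeriv ℝ (j + 1) (f p.1) p.2) := by
        funext p
        rw [iteratedFDeriv_succ_eq_comp_right]
        simp
      rw [this]
      exact (LinearIsometryEquiv.continuous _).comp h1
  · rintro ⟨h1, h2, h3⟩
    refine ⟨fun t => ?_, fun j hj => ?_⟩
    · rw [show ((m + 1 : ℕ) : ℕ∞ω) = (m : ℕ∞ω) + 1 by push_cast; rfl,
        contDiff_succ_iff_fderiv]
      refine ⟨h2 t, fun h => ?_, h3.1 t⟩
      simp at h
    · rcases j with _ | j
      · exact (cfam_zero_iff.2 h1).2 0 le_rfl
      · have h4 := h3.2 j (by omega)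
        have : (fun p : T × E => iteratedFDeriv ℝ (j + 1) (f p.1) p.2) = fun p : T × E =>
            (continuousMultilinearCurryRightEquiv' ℝ j E F).symm
              (iteratedFDeriv ℝ j (fderiv ℝ (f p.1)) p.2) := by
          funext p
          rw [iteratedFDeriv_succ_eq_comp_right]
          rfl
        rw [this]
        exact (LinearIsometryEquiv.continuous _).comp h4

/-- pulling back a family along a continuous map of the parameters -/
theorem CFam.comp_param {S : Type} [TopologicalSpace S] {m : ℕ} {f : T → E → F} (h : CFam m f)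
    {g : S → T} (hg : Continuous g) : CFam m (fun s => f (g s)) :=
  ⟨fun s => h.1 (g s), fun j hj =>
    (h.2 j hj).comp ((hg.comp continuous_fst).prodMk continuous_snd)⟩

/-- a constant family -/
theorem cfam_const {m : ℕ} {f : E → F} (h : ContDiff ℝ m f) : CFam m (fun _ : T => f) :=
  ⟨fun _ => h, fun j hj => (h.continuous_iteratedFDeriv (by exact_mod_cast hj)).comp
    continuous_snd⟩

/-- composition with a continuous linear map -/
theorem CFam.clm {m : ℕ} {f : T → E → F} (h : CFam m f) (L : F →L[ℝ] G) :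
    CFam m (fun t x => L (f t x)) := by
  refine ⟨fun t => L.contDiff.comp (h.1 t), fun j hj => ?_⟩
  have : (fun p : T × E => iteratedFDeriv ℝ j (fun x => L (f p.1 x)) p.2) = fun p : T × E =>
      ContinuousLinearMap.compContinuousMultilinearMapL ℝ (fun _ : Fin j => E) F G L
        (iteratedFDeriv ℝ j (f p.1) p.2) := by
    funext p
    exact L.iteratedFDeriv_comp_left (n := m) ((h.1 p.1).contDiffAt) (by exact_mod_cast hj)
  rw [this]
  exact (ContinuousLinearMap.continuous _).comp (h.2 j hj)

/-- pairs -/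
theorem CFam.prodMk : ∀ (m : ℕ) {F G : Type} [NormedAddCommGroup F] [NormedSpace ℝ F]
    [NormedAddCommGroup G] [NormedSpace ℝ G] {f : T → E → F} {g : T → E → G},
    CFam m f → CFam m g → CFam m (fun t x => (f t x, g t x))
  | 0, _, _, _, _, _, _, f, g, hf, hg => by
    rw [cfam_zero_iff] at *
    exact hf.prodMk hg
  | m + 1, F, G, _, _, _, _, f, g, hf, hg => by
    rw [cfam_succ_iff] at *
    refine ⟨hf.1.prodMk hg.1, fun t => (hf.2.1 t).prodMk (hg.2.1 t), ?_⟩
    have h1 := CFam.prodMk m hf.2.2 hg.2.2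
    have h2 := h1.clm (ContinuousLinearMap.prodₗᵢ (𝕜 := ℝ) ℝ :
      ((E →L[ℝ] F) × (E →L[ℝ] G)) ≃ₗᵢ[ℝ] (E →L[ℝ] F × G)).toContinuousLinearEquiv.toContinuousLinearMap
    have : (fun t => fderiv ℝ fun x => (f t x, g t x)) = fun t x =>
        (ContinuousLinearMap.prodₗᵢ (𝕜 := ℝ) ℝ :
          ((E →L[ℝ] F) × (E →L[ℝ] G)) ≃ₗᵢ[ℝ] (E →L[ℝ] F × G)).toContinuousLinearEquiv.toContinuousLinearMap
          (fderiv ℝ (f t) x, fderiv ℝ (g t) x) := by
      funext t x
      exact (hf.2.1 t x).fderiv_prodMk (hg.2.1 t x)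
    rw [this]
    exact h2

/-- composition with a fixed map which is smooth on an open set -/
theorem CFam.comp_contDiffOn : ∀ (m : ℕ) {F G : Type} [NormedAddCommGroup F] [NormedSpace ℝ F]
    [NormedAddCommGroup G] [NormedSpace ℝ G] {f : T → E → F} {h : F → G} {U : Set F},
    IsOpen U → ContDiffOn ℝ ∞ h U → (∀ t x, f t x ∈ U) → CFam m f →
    CFam m (fun t x => h (f t x))
  | 0, F, G, _, _, _, _, f, h, U, hU, hh, hfU, hf => by
    rw [cfam_zero_iff] at *
    exact hh.continuousOn.comp_continuous hf (fun p => hfU p.1 p.2)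
  | m + 1, F, G, _, _, _, _, f, h, U, hU, hh, hfU, hf => by
    have hfm : CFam m f := hf.of_le (by omega)
    rw [cfam_succ_iff] at *
    have hd : ∀ y ∈ U, DifferentiableAt ℝ h y := fun y hy =>
      (hh.contDiffAt (hU.mem_nhds hy)).differentiableAt (by simp)
    have hD : ContDiffOn ℝ ∞ (fderiv ℝ h) U := hh.fderiv_of_isOpen hU (by simp)
    have h1 : CFam m (fun t x => fderiv ℝ h (f t x)) := CFam.comp_contDiffOn m hU hD hfU hfm
    have h2 := CFam.prodMk m h1 hf.2.2
    have h3 : CFam m (fun t x => (fderiv ℝ h (f t x)).comp (fderiv ℝ (f t) x)) := by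
      have := CFam.comp_contDiffOn m (F := (F →L[ℝ] G) × (E →L[ℝ] F)) (G := E →L[ℝ] G)
        (h := fun p => p.1.comp p.2) (U := univ) isOpen_univ
        (ContDiff.contDiffOn (by
          exact (ContinuousLinearMap.compL ℝ E F G).isBoundedBilinearMap.contDiff))
        (fun _ _ => mem_univ _) h2
      exact this
    refine ⟨hh.continuousOn.comp_continuous hf.1 (fun p => hfU p.1 p.2),
      fun t x => (hd _ (hfU t x)).comp x (hf.2.1 t x), ?_⟩
    have : (fun t => fderiv ℝ fun x => h (f t x)) = fun t x =>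
        (fderiv ℝ h (f t x)).comp (fderiv ℝ (f t) x) := by
      funext t x
      exact fderiv_comp x (hd _ (hfU t x)) (hf.2.1 t x)
    rw [this]
    exact h3

theorem CFam.comp_contDiff {m : ℕ} {f : T → E → F} {h : F → G} (hh : ContDiff ℝ ∞ h)
    (hf : CFam m f) : CFam m (fun t x => h (f t x)) :=
  CFam.comp_contDiffOn m isOpen_univ hh.contDiffOn (fun _ _ => mem_univ _) hf

/-- a bilinear product of families -/
theorem CFam.compL {m : ℕ} {H : Type} [NormedAddCommGroup H] [NormedSpace ℝ H]
    {f : T → E → G →L[ℝ] H} {g : T → E → F →L[ℝ] G} (hf : CFam m f) (hg : CFam m g) :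
    CFam m (fun t x => (f t x).comp (g t x)) := by
  have h2 := CFam.prodMk m hf hg
  have := CFam.comp_contDiff (h := fun p : (G →L[ℝ] H) × (F →L[ℝ] G) => p.1.comp p.2)
    (by exact (ContinuousLinearMap.compL ℝ F G H).isBoundedBilinearMap.contDiff) h2
  exact this

theorem CFam.add {m : ℕ} {f g : T → E → F} (hf : CFam m f) (hg : CFam m g) :
    CFam m (fun t x => f t x + g t x) := by
  have h2 := CFam.prodMk m hf hg
  exact h2.clm (ContinuousLinearMap.fst ℝ F F + ContinuousLinearMap.snd ℝ F F)

/-- a family times a continuous function of the parameter -/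
theorem CFam.smul_param {m : ℕ} {f : T → E → F} (hf : CFam m f) {c : T → ℝ}
    (hc : Continuous c) : CFam m (fun t x => c t • f t x) := by
  refine ⟨fun t => contDiff_const.smul (hf.1 t), fun j hj => ?_⟩
  have : (fun p : T × E => iteratedFDeriv ℝ j (fun x => c p.1 • f p.1 x) p.2) = fun p : T × E =>
      c p.1 • iteratedFDeriv ℝ j (f p.1) p.2 := by
    funext p
    exact iteratedFDeriv_const_smul_apply (a := c p.1)
      (((hf.1 p.1).of_le (by exact_mod_cast hj)).contDiffAt)
  rw [this]
  exact (hc.comp continuous_fst).smul (hf.2 j hj)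

/-- composition of families -/
theorem CFam.comp : ∀ (m : ℕ) {F G : Type} [NormedAddCommGroup F] [NormedSpace ℝ F]
    [NormedAddCommGroup G] [NormedSpace ℝ G] {g : T → F → G} {f : T → E → F},
    CFam m g → CFam m f → CFam m (fun t x => g t (f t x))
  | 0, F, G, _, _, _, _, g, f, hg, hf => by
    rw [cfam_zero_iff] at *
    exact hg.comp (continuous_fst.prodMk hf)
  | m + 1, F, G, _, _, _, _, g, f, hg, hf => by
    have hfm : CFam m f := hf.of_le (by omega)
    rw [cfam_succ_iff] at *
    have h1 : CFam m (fun t x => fderiv ℝ (g t) (f t x)) := CFam.comp m hg.2.2 hfm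
    refine ⟨hg.1.comp (continuous_fst.prodMk hf.1),
      fun t => (hg.2.1 t).comp (hf.2.1 t), ?_⟩
    have : (fun t => fderiv ℝ fun x => g t (f t x)) = fun t x =>
        (fderiv ℝ (g t) (f t x)).comp (fderiv ℝ (f t) x) := by
      funext t x
      exact fderiv_comp x (hg.2.1 t _) (hf.2.1 t x)
    rw [this]
    exact h1.compL hf.2.2

/-- inverses of families of diffeomorphisms -/
theorem CFam.inverse [CompleteSpace E] : ∀ (m : ℕ) {f g : T → E → E}, CFam (m + 1) f →
    (∀ t x, g t (f t x) = x) → (∀ t y, f t (g t y) = y) →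
    (∀ t x, ∃ A : E ≃L[ℝ] E, (A : E →L[ℝ] E) = fderiv ℝ (f t) x) →
    (Continuous fun p : T × E => g p.1 p.2) → CFam m g
  | 0, f, g, _, _, _, _, hg => cfam_zero_iff.2 hg
  | m + 1, f, g, hf, hgf, hfg, hA, hg => by
    have h1 : CFam m g := CFam.inverse m (hf.of_le (by omega)) hgf hfg hA hg
    have hf' := (cfam_succ_iff.1 hf)
    have hfd : CFam m (fun t => fderiv ℝ (f t)) := hf'.2.2.of_le (by omega)
    have h2 : CFam m (fun t x => fderiv ℝ (f t) (g t x)) := CFam.comp m hfd h1
    -- the derivative of the inverse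
    have hder : ∀ t y, HasFDerivAt (g t) (ContinuousLinearMap.inverse (fderiv ℝ (f t) (g t y))) y := by
      intro t y
      obtain ⟨A, hA'⟩ := hA t (g t y)
      have h3 : HasFDerivAt (f t) (A : E →L[ℝ] E) (g t y) := by
        rw [hA']
        exact (hf'.2.1 t _).hasFDerivAt
      have hgc : ContinuousAt (g t) y := (hg.comp (Continuous.prodMk_right t)).continuousAt
      have h4 := h3.of_local_left_inverse hgc (Eventually.of_forall fun y => hfg t y)
      rw [← hA', ContinuousLinearMap.inverse_equiv]
      exact h4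
    rw [cfam_succ_iff]
    refine ⟨hg, fun t y => (hder t y).differentiableAt, ?_⟩
    have : (fun t => fderiv ℝ (g t)) = fun t y =>
        ContinuousLinearMap.inverse (fderiv ℝ (f t) (g t y)) := by
      funext t y
      exact (hder t y).fderiv
    rw [this]
    refine CFam.comp_contDiffOn m (U := range ((↑) : (E ≃L[ℝ] E) → (E →L[ℝ] E)))
      (ContinuousLinearEquiv.isOpen) ?_ ?_ h2
    · rintro _ ⟨A, rfl⟩
      exact (contDiffAt_map_inverse A).contDiffWithinAt
    · intro t x
      obtain ⟨A, hA'⟩ := hA t (g t x)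
      exact ⟨A, hA'⟩

end Pool.Agent.Helper546_sympct
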