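import Mathlib

/-!
# Compactly supported perturbations of the identity

* a smooth map which is the identity outside a compact set and has invertible derivatives is a
  bijection (Hadamard);
* the inverses of a continuous family of bijections which are the identity outside a fixed compact
  set form a continuous family.
-/

set_option autoImplicit false

open Set Filter Topology
open scoped ContDiff

noncomputable section

namespace Pool.Agent.Helper546_sympct

variable {T : Type} [TopologicalSpace T]
variable {E : Type} [NormedAddCommGroup E] [NormedSpace ℝ E] [FiniteDimensional ℝ E]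

/-- the inverses of a continuous family of bijections with support in a compact set -/
theorem continuous_inverse {f g : T → E → E} {K : Set E} (hK : IsCompact K)
    (hf : Continuous fun p : T × E => f p.1 p.2) (hgf : ∀ t x, g t (f t x) = x)
    (hfg : ∀ t y, f t (g t y) = y) (hfK : ∀ t, ∀ x, x ∉ K → f t x = x) :
    Continuous fun p : T × E => g p.1 p.2 := by
  have : ProperSpace E := FiniteDimensional.proper ℝ E
  rw [continuous_iff_continuousAt]
  rintro ⟨t₀, y₀⟩
  obtain ⟨R₀, hR₀⟩ := hK.isBounded.subset_closedBall (0 : E)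
  set R : ℝ := max R₀ (‖y₀‖ + 1) with hR
  have hKR : K ⊆ Metric.closedBall (0 : E) R :=
    hR₀.trans (Metric.closedBall_subset_closedBall (le_max_left _ _))
  intro V hV
  obtain ⟨V', hV'V, hV'o, hV'x⟩ := mem_nhds_iff.1 hV
  have hS : IsCompact (Metric.closedBall (0 : E) R \ V') :=
    (isCompact_closedBall (0 : E) R).diff hV'o
  have h1 : ∀ᶠ p : T × E in 𝓝 (t₀, y₀), ∀ x ∈ Metric.closedBall (0 : E) R \ V', f p.1 x ≠ p.2 := by
    refine hS.eventually_forall_of_forall_eventually (P := fun (p : T × E) (x : E) => f p.1 x ≠ p.2) ?_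
    intro x hx
    have hne : f t₀ x ≠ y₀ := by
      intro h
      apply hx.2
      have : g t₀ y₀ = x := by rw [← h, hgf]
      rw [← this]
      exact hV'x
    have hc : Continuous fun z : (T × E) × E => (f z.1.1 z.2, z.1.2) := by
      refine Continuous.prodMk ?_ (continuous_snd.comp continuous_fst)
      exact hf.comp ((continuous_fst.comp continuous_fst).prodMk continuous_snd)
    have hopen : IsOpen {q : E × E | q.1 ≠ q.2} := isOpen_ne_fun continuous_fst continuous_snd
    have hc' : ContinuousAt (fun z : (T × E) × E => (f z.1.1 z.2, z.1.2)) ((t₀, y₀), x) :=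
      hc.continuousAt
    exact hc'.preimage_mem_nhds (hopen.mem_nhds hne)
  have h2 : ∀ᶠ p : T × E in 𝓝 (t₀, y₀), ‖p.2‖ < ‖y₀‖ + 1 := by
    have hc : Continuous fun p : T × E => ‖p.2‖ := continuous_norm.comp continuous_snd
    exact hc.continuousAt.preimage_mem_nhds (isOpen_Iio.mem_nhds (by simp))
  have h3 : ∀ᶠ p : T × E in 𝓝 (t₀, y₀), g p.1 p.2 ∈ V := by
   filter_upwards [h1, h2] with p hp1 hp2
   apply hV'V
   by_contra hcon
   by_cases hb : g p.1 p.2 ∈ Metric.closedBall (0 : E) R
   · exact hp1 _ ⟨hb, hcon⟩ (hfg _ _)
   · have hnK : g p.1 p.2 ∉ K := fun h => hb (hKR h)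
     have h3 := hfK p.1 _ hnK
     rw [hfg] at h3
     apply hb
     rw [← h3, mem_closedBall_zero_iff]
     exact hp2.le.trans (le_max_right _ _)
  exact h3

/-- **Hadamard**: a local diffeomorphism which is the identity outside a compact set is a
bijection. -/
theorem bijective_of_compact {f : E → E} {K : Set E} (hK : IsCompact K) (hf : ContDiff ℝ 1 f)
    (hA : ∀ x, ∃ A : E ≃L[ℝ] E, (A : E →L[ℝ] E) = fderiv ℝ f x) (hfK : ∀ x, x ∉ K → f x = x) :
    Function.Bijective f := by
  have : ProperSpace E := FiniteDimensional.proper ℝ E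
  have : CompleteSpace E := FiniteDimensional.complete ℝ E
  have hcont : Continuous f := hf.continuous
  have hstrict : ∀ x, ∃ A : E ≃L[ℝ] E, HasStrictFDerivAt f (A : E →L[ℝ] E) x := by
    intro x
    obtain ⟨A, hA'⟩ := hA x
    refine ⟨A, ?_⟩
    rw [hA']
    exact hf.contDiffAt.hasStrictFDerivAt (by simp)
  have hopen : IsOpenMap f := by
    rw [isOpenMap_iff_nhds_le]
    intro x
    obtain ⟨A, hA'⟩ := hstrict x
    exact hA'.map_nhds_eq_of_equiv.ge
  have hclosed : IsClosedMap f := by
    have hp : IsProperMap f := by
      rw [isProperMap_iff_tendsto_cocompact]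
      refine ⟨hcont, ?_⟩
      have : f =ᶠ[cocompact E] id := by
        filter_upwards [hK.compl_mem_cocompact] with x hx using hfK x hx
      exact tendsto_id.congr' this.symm
    exact hp.isClosedMap
  refine ⟨?_, ?_⟩
  · -- injectivity
    set P : Set (E × E) := {p | p.1 ≠ p.2 ∧ f p.1 = f p.2} with hP
    have hPclosed : IsClosed P := by
      rw [← isOpen_compl_iff, isOpen_iff_mem_nhds]
      rintro ⟨x, x'⟩ hx
      by_cases hxx : x = x'
      · subst hxx
        obtain ⟨A, hA'⟩ := hstrict x
        have hinj := hA'.toOpenPartialHomeomorph f |>.injOn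
        have hmem : (hA'.toOpenPartialHomeomorph f).source ∈ 𝓝 x :=
          (hA'.toOpenPartialHomeomorph f).open_source.mem_nhds
            (hA'.mem_toOpenPartialHomeomorph_source)
        filter_upwards [prod_mem_nhds hmem hmem] with p hp hpP
        exact hpP.1 (hinj hp.1 hp.2 hpP.2)
      · have hne : f x ≠ f x' := fun h => hx ⟨hxx, h⟩
        have hopen' : IsOpen {p : E × E | f p.1 ≠ f p.2} :=
          isOpen_ne_fun (hcont.comp continuous_fst) (hcont.comp continuous_snd)
        filter_upwards [hopen'.mem_nhds hne] with p hp hpP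
        exact hp hpP.2
    have hPsub : P ⊆ (K ∪ f '' K) ×ˢ (K ∪ f '' K) := by
      rintro ⟨x, x'⟩ ⟨hne, he⟩
      simp only at hne he
      have hor : x ∈ K ∨ x' ∈ K := by
        by_contra hcon
        push Not at hcon
        rw [hfK x hcon.1, hfK x' hcon.2] at he
        exact hne he
      have hfx : f x ∈ f '' K := by
        rcases hor with h | h
        · exact mem_image_of_mem f h
        · rw [he]
          exact mem_image_of_mem f h
      refine ⟨?_, ?_⟩
      · by_cases h : x ∈ K
        · exact Or.inl h
        · right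
          have h3 := hfx
          rwa [hfK x h] at h3
      · by_cases h : x' ∈ K
        · exact Or.inl h
        · right
          have h3 := hfx
          rwa [he, hfK x' h] at h3
    have hKc : IsCompact (K ∪ f '' K) := hK.union (hK.image hcont)
    have hPc : IsCompact P := (hKc.prod hKc).of_isClosed_subset hPclosed hPsub
    have hDc : IsCompact ((fun p : E × E => f p.1) '' P) :=
      hPc.image (hcont.comp continuous_fst)
    have hDo : IsOpen ((fun p : E × E => f p.1) '' P) := by
      rw [isOpen_iff_mem_nhds]
      rintro _ ⟨⟨x, x'⟩, ⟨hne, he⟩, rfl⟩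
      simp only at hne he
      obtain ⟨U, U', hU, hU', hxU, hxU', hd⟩ := t2_separation hne
      have h1 : f '' U ∈ 𝓝 (f x) := (hopen U hU).mem_nhds (mem_image_of_mem f hxU)
      have h2 : f '' U' ∈ 𝓝 (f x) := by
        rw [he]
        exact (hopen U' hU').mem_nhds (mem_image_of_mem f hxU')
      filter_upwards [h1, h2] with y hy1 hy2
      obtain ⟨a, ha, rfl⟩ := hy1
      obtain ⟨b, hb, hab⟩ := hy2
      refine ⟨(a, b), ⟨?_, hab.symm⟩, rfl⟩
      intro h
      simp only at h
      subst h
      exact (Set.disjoint_left.1 hd ha) hb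
    rcases isClopen_iff.1 ⟨hDc.isClosed, hDo⟩ with h | h
    · intro x x' he
      by_contra hne
      have : f x ∈ ((fun p : E × E => f p.1) '' P) := ⟨(x, x'), ⟨hne, he⟩, rfl⟩
      rw [h] at this
      exact this
    · rw [h] at hDc
      by_cases hs : Subsingleton E
      · exact fun x x' _ => Subsingleton.elim _ _
      · exfalso
        have : Nontrivial E := not_subsingleton_iff_nontrivial.1 hs
        have : NoncompactSpace E := NormedSpace.noncompactSpace ℝ E
        exact noncompact_univ E hDc
  · -- surjectivity
    rcases isClopen_iff.1 ⟨hclosed.isClosed_range, hopen.isOpen_range⟩ with h | h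
    · exact absurd (mem_range_self (0 : E)) (by rw [h]; exact fun h => h)
    · exact range_eq_univ.1 h

end Pool.Agent.Helper546_sympct
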