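import Pool.Agent.Helper546_sympct.Defs
import Pool.Agent.Helper546_sympct.Fam
import Pool.Agent.Helper546_sympct.Inv

/-!
# The symplectomorphisms with support in a compact set form a second countable topological group
-/

set_option autoImplicit false

open Set Filter Topology
open scoped ContDiff

noncomputable section

namespace Pool.Agent.Helper546_sympct

/-- a nondegenerate bilinear form -/
structure IsSympForm {V : Type} [NormedAddCommGroup V] [NormedSpace ℝ V] (Ω : V → V → ℝ) :
    Prop where
  add_left : ∀ u v w, Ω (u + v) w = Ω u w + Ω v w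
  add_right : ∀ u v w, Ω u (v + w) = Ω u v + Ω u w
  smul_left : ∀ (c : ℝ) (u v : V), Ω (c • u) v = c * Ω u v
  smul_right : ∀ (c : ℝ) (u v : V), Ω u (c • v) = c * Ω u v
  nondeg : ∀ v, (∀ w, Ω v w = 0) → v = 0

theorem isSympForm_om (n : ℕ) : IsSympForm (om n) where
  add_left u v w := by
    simp only [om, PiLp.add_apply]
    rw [← Finset.sum_add_distrib]
    refine Finset.sum_congr rfl fun i _ => ?_
    ring
  add_right u v w := by
    simp only [om, PiLp.add_apply]
    rw [← Finset.sum_add_distrib]
    refine Finset.sum_congr rfl fun i _ => ?_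
    ring
  smul_left c u v := by
    simp only [om, PiLp.smul_apply, smul_eq_mul]
    rw [Finset.mul_sum]
    refine Finset.sum_congr rfl fun i _ => ?_
    ring
  smul_right c u v := by
    simp only [om, PiLp.smul_apply, smul_eq_mul]
    rw [Finset.mul_sum]
    refine Finset.sum_congr rfl fun i _ => ?_
    ring
  nondeg v h := by
    ext i
    rcases i with i | i
    · have := h (EuclideanSpace.single (Sum.inr i) 1)
      simpa [om, EuclideanSpace.single_apply] using this
    · have := h (EuclideanSpace.single (Sum.inl i) 1)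
      simpa [om, EuclideanSpace.single_apply] using this

variable {V : Type} [NormedAddCommGroup V] [NormedSpace ℝ V] {Ω : V → V → ℝ}

theorem SympCt.ext {φ ψ : SympCt Ω} (h : ∀ z, φ.toEquiv z = ψ.toEquiv z) : φ = ψ := by
  cases φ; cases ψ
  congr
  exact Equiv.ext h

theorem SuppIn.ext {K : Set V} {φ ψ : SuppIn Ω K}
    (h : ∀ z, φ.1.toEquiv z = ψ.1.toEquiv z) : φ = ψ :=
  Subtype.ext (SympCt.ext h)

theorem SympCt.differentiableAt (φ : SympCt Ω) (z : V) : DifferentiableAt ℝ φ.toEquiv z :=
  (φ.smooth.differentiable (by simp)) z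

theorem SympCt.differentiableAt_symm (φ : SympCt Ω) (z : V) :
    DifferentiableAt ℝ φ.toEquiv.symm z :=
  (φ.smooth_symm.differentiable (by simp)) z

/-- the derivative of a symplectomorphism is invertible -/
theorem SympCt.exists_equiv (φ : SympCt Ω) (z : V) :
    ∃ A : V ≃L[ℝ] V, (A : V →L[ℝ] V) = fderiv ℝ φ.toEquiv z := by
  have h1 : (fderiv ℝ φ.toEquiv.symm (φ.toEquiv z)).comp (fderiv ℝ φ.toEquiv z) =
      ContinuousLinearMap.id ℝ _ := by
    rw [← fderiv_comp z (φ.differentiableAt_symm _) (φ.differentiableAt z)]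
    have : (φ.toEquiv.symm ∘ φ.toEquiv : V → V) = id := by
      funext x
      simp
    rw [this, fderiv_id]
  have h2 : (fderiv ℝ φ.toEquiv z).comp (fderiv ℝ φ.toEquiv.symm (φ.toEquiv z)) =
      ContinuousLinearMap.id ℝ _ := by
    have h3 : fderiv ℝ φ.toEquiv z = fderiv ℝ φ.toEquiv (φ.toEquiv.symm (φ.toEquiv z)) := by
      rw [Equiv.symm_apply_apply]
    rw [h3, ← fderiv_comp (φ.toEquiv z) (φ.differentiableAt _) (φ.differentiableAt_symm _)]
    have : (φ.toEquiv ∘ φ.toEquiv.symm : V → V) = id := by
      funext x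
      simp
    rw [this, fderiv_id]
  refine ⟨ContinuousLinearEquiv.equivOfInverse (fderiv ℝ φ.toEquiv z)
    (fderiv ℝ φ.toEquiv.symm (φ.toEquiv z)) (fun x => ?_) (fun x => ?_), rfl⟩
  · exact DFunLike.congr_fun h1 x
  · exact DFunLike.congr_fun h2 x

theorem SympCt.symplectic_symm (φ : SympCt Ω) (z v w : V) :
    Ω (fderiv ℝ φ.toEquiv.symm z v) (fderiv ℝ φ.toEquiv.symm z w) = Ω v w := by
  have h2 : ∀ u, fderiv ℝ φ.toEquiv (φ.toEquiv.symm z) (fderiv ℝ φ.toEquiv.symm z u) = u := by
    intro u
    have h1 : (fderiv ℝ φ.toEquiv (φ.toEquiv.symm z)).comp (fderiv ℝ φ.toEquiv.symm z) =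
        ContinuousLinearMap.id ℝ _ := by
      rw [← fderiv_comp z (φ.differentiableAt _) (φ.differentiableAt_symm _)]
      have : (φ.toEquiv ∘ φ.toEquiv.symm : V → V) = id := by
        funext x
        simp
      rw [this, fderiv_id]
    exact DFunLike.congr_fun h1 u
  rw [← φ.symplectic (φ.toEquiv.symm z), h2, h2]

/-- the composition -/
def SympCt.comp (φ ψ : SympCt Ω) : SympCt Ω where
  toEquiv := ψ.toEquiv.trans φ.toEquiv
  smooth := φ.smooth.comp ψ.smooth
  smooth_symm := ψ.smooth_symm.comp φ.smooth_symm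
  symplectic := fun z v w => by
    have : fderiv ℝ (ψ.toEquiv.trans φ.toEquiv) z =
        (fderiv ℝ φ.toEquiv (ψ.toEquiv z)).comp (fderiv ℝ ψ.toEquiv z) :=
      fderiv_comp z (φ.differentiableAt _) (ψ.differentiableAt _)
    rw [this]
    simp only [ContinuousLinearMap.comp_apply]
    rw [φ.symplectic, ψ.symplectic]
  compact_support := by
    obtain ⟨K, hK, h⟩ := φ.compact_support
    obtain ⟨K', hK', h'⟩ := ψ.compact_support
    refine ⟨K ∪ K', hK.union hK', fun z hz => ?_⟩
    simp only [mem_union, not_or] at hz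
    rw [Equiv.trans_apply, h' z hz.2, h z hz.1]

/-- the inverse -/
def SympCt.inv (φ : SympCt Ω) : SympCt Ω where
  toEquiv := φ.toEquiv.symm
  smooth := φ.smooth_symm
  smooth_symm := φ.smooth
  symplectic := φ.symplectic_symm
  compact_support := by
    obtain ⟨K, hK, h⟩ := φ.compact_support
    refine ⟨K, hK, fun z hz => ?_⟩
    rw [Equiv.symm_apply_eq, h z hz]

instance instGroup (K : Set V) : Group (SuppIn Ω K) where
  mul φ ψ := ⟨φ.1.comp ψ.1, fun z hz => by
    show φ.1.toEquiv (ψ.1.toEquiv z) = z
    rw [ψ.2 z hz, φ.2 z hz]⟩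
  one := ⟨idSymp Ω, fun _ _ => rfl⟩
  inv φ := ⟨φ.1.inv, fun z hz => by
    show φ.1.toEquiv.symm z = z
    rw [Equiv.symm_apply_eq, φ.2 z hz]⟩
  mul_assoc φ ψ χ := SuppIn.ext fun _ => rfl
  one_mul φ := SuppIn.ext fun _ => rfl
  mul_one φ := SuppIn.ext fun _ => rfl
  inv_mul_cancel φ := SuppIn.ext fun z => φ.1.toEquiv.symm_apply_apply z

/-- the map to the space of all jets, which induces the topology -/
def jets {K : Set V} (φ : SuppIn Ω K) (j : ℕ) : C(V, V [×j]→L[ℝ] V) := jet j φ.1

theorem inducing_jets (K : Set V) : IsInducing (jets : SuppIn Ω K → ∀ j, C(V, V [×j]→L[ℝ] V)) := by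
  constructor
  show smoothTopology Ω K = _
  rw [smoothTopology, Pi.topologicalSpace, induced_iInf]
  congr 1
  funext j
  rw [induced_compose]
  rfl

section fin

variable [FiniteDimensional ℝ V]

/-- continuity of maps to the group -/
theorem continuous_iff {T : Type} [TopologicalSpace T] {K : Set V} {f : T → SuppIn Ω K} :
    Continuous f ↔ ∀ m, CFam m (fun t => ((f t).1.toEquiv : V → V)) := by
  have : ProperSpace V := FiniteDimensional.proper ℝ V
  have h0 : Continuous f ↔ ∀ j, Continuous fun t => jet j (f t).1 := by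
    rw [(inducing_jets K).continuous_iff, continuous_pi_iff]
    rfl
  rw [h0]
  constructor
  · intro h m
    refine ⟨fun t => (f t).1.smooth.of_le (by exact_mod_cast le_top), fun j _ => ?_⟩
    exact ContinuousMap.continuous_uncurry_of_continuous ⟨_, h j⟩
  · intro h j
    exact ContinuousMap.continuous_of_continuous_uncurry _ ((h j).2 j le_rfl)

/-- the tautological family -/
theorem cfam_taut (K : Set V) (m : ℕ) :
    CFam m (fun φ : SuppIn Ω K => (φ.1.toEquiv : V → V)) :=
  continuous_iff.1 continuous_id m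

theorem cfam_of_continuous {T : Type} [TopologicalSpace T] {K : Set V} {f : T → SuppIn Ω K}
    (hf : Continuous f) (m : ℕ) : CFam m (fun t => ((f t).1.toEquiv : V → V)) :=
  continuous_iff.1 hf m

theorem isTopologicalGroup {K : Set V} (hK : IsCompact K) : IsTopologicalGroup (SuppIn Ω K) where
  continuous_mul := by
    rw [continuous_iff]
    intro m
    exact CFam.comp m (g := fun p : SuppIn Ω K × SuppIn Ω K => (p.1.1.toEquiv : V → V))
      (f := fun p : SuppIn Ω K × SuppIn Ω K => (p.2.1.toEquiv : V → V))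
      (cfam_of_continuous continuous_fst m) (cfam_of_continuous continuous_snd m)
  continuous_inv := by
    have : CompleteSpace V := FiniteDimensional.complete ℝ V
    rw [continuous_iff]
    intro m
    refine CFam.inverse m (f := fun φ : SuppIn Ω K => (φ.1.toEquiv : V → V))
      (cfam_taut K (m + 1)) (fun φ x => φ.1.toEquiv.symm_apply_apply x)
      (fun φ x => φ.1.toEquiv.apply_symm_apply x) (fun φ x => φ.1.exists_equiv x) ?_
    exact continuous_inverse hK (f := fun φ : SuppIn Ω K => (φ.1.toEquiv : V → V))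
      (g := fun φ : SuppIn Ω K => (φ.1.toEquiv.symm : V → V)) (cfam_taut K 0).continuous
      (fun φ x => φ.1.toEquiv.symm_apply_apply x) (fun φ x => φ.1.toEquiv.apply_symm_apply x)
      (fun φ x hx => φ.2 x hx)

instance finite_cmm (j : ℕ) : FiniteDimensional ℝ (V [×j]→L[ℝ] V) := by
  refine FiniteDimensional.of_injective
    ({ toFun := ContinuousMultilinearMap.toMultilinearMap
       map_add' := fun _ _ => rfl
       map_smul' := fun _ _ => rfl } :
      (V [×j]→L[ℝ] V) →ₗ[ℝ] MultilinearMap ℝ (fun _ : Fin j => V) V) ?_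
  exact ContinuousMultilinearMap.toMultilinearMap_injective

instance secondCountable_cmm (j : ℕ) : SecondCountableTopology (V [×j]→L[ℝ] V) := by
  have : ProperSpace (V [×j]→L[ℝ] V) := FiniteDimensional.proper ℝ _
  infer_instance

instance secondCountable (K : Set V) : SecondCountableTopology (SuppIn Ω K) := by
  have : ProperSpace V := FiniteDimensional.proper ℝ V
  exact (inducing_jets K).secondCountableTopology

instance t2 (K : Set V) : T2Space (SuppIn Ω K) := by
  refine T2Space.of_injective_continuous (f := (jets : SuppIn Ω K → ∀ j, C(V, V [×j]→L[ℝ] V))) ?_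
    (inducing_jets K).continuous
  intro φ ψ h
  refine SuppIn.ext fun z => ?_
  have h1 := congrFun h 0
  have h2 := DFunLike.congr_fun h1 z
  have h3 : iteratedFDeriv ℝ 0 φ.1.toEquiv z = iteratedFDeriv ℝ 0 ψ.1.toEquiv z := h2
  have h4 := DFunLike.congr_fun h3 0
  simpa using h4

end fin

end Pool.Agent.Helper546_sympct
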