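import Mathlib

/-!
# Countably many homotopy classes

In a second countable topological group with a neighbourhood of the identity which contracts to
the identity, there are countably many homotopy classes of based maps of cubes.
-/

set_option autoImplicit false

open Set Filter Topology
open scoped unitInterval

noncomputable section

namespace Pool.Agent.Helper546_sympct

variable {H : Type} [TopologicalSpace H] [Group H] [IsTopologicalGroup H]

/-- two based maps of the cube which are close are homotopic -/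
theorem homotopic_of_close {k : ℕ} {W : Set H} (h : I × W → H) (hh : Continuous h)
    (h0 : ∀ w, h (0, w) = 1) (h1 : ∀ w, h (1, w) = w.1)
    (hid : ∀ t (hw : (1 : H) ∈ W), h (t, ⟨1, hw⟩) = 1)
    (f g : GenLoop (Fin k) H 1) (hfg : ∀ x, g.1 x * (f.1 x)⁻¹ ∈ W) : GenLoop.Homotopic f g := by
  refine ⟨⟨⟨⟨fun p => h (p.1, ⟨g.1 p.2 * (f.1 p.2)⁻¹, hfg p.2⟩) * f.1 p.2, ?_⟩, ?_, ?_⟩, ?_⟩⟩
  · refine Continuous.mul (hh.comp (continuous_fst.prodMk ?_)) (f.1.continuous.comp continuous_snd)
    exact Continuous.subtype_mk ((g.1.continuous.comp continuous_snd).mul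
      (f.1.continuous.comp continuous_snd).inv) _
  · intro x
    show h (0, _) * f.1 x = f.1 x
    rw [h0, one_mul]
  · intro x
    show h (1, _) * f.1 x = g.1 x
    rw [h1, inv_mul_cancel_right]
  · intro t x hx
    have hf : f.1 x = 1 := f.2 x hx
    have hg : g.1 x = 1 := g.2 x hx
    have hW : (1 : H) ∈ W := by
      have := hfg x
      rw [hf, hg] at this
      simpa using this
    show h (t, ⟨g.1 x * (f.1 x)⁻¹, hfg x⟩) * f.1 x = f.1 x
    have : (⟨g.1 x * (f.1 x)⁻¹, hfg x⟩ : W) = ⟨1, hW⟩ := by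
      apply Subtype.ext
      show g.1 x * (f.1 x)⁻¹ = 1
      rw [hf, hg]
      simp
    rw [this, hid, one_mul]

/-- there are countably many homotopy classes of based maps of the cube -/
theorem countable_classes [SecondCountableTopology H] {k : ℕ} {W : Set H} (hW : IsOpen W)
    (hW1 : (1 : H) ∈ W) (h : I × W → H) (hh : Continuous h)
    (h0 : ∀ w, h (0, w) = 1) (h1 : ∀ w, h (1, w) = w.1)
    (hid : ∀ t (hw : (1 : H) ∈ W), h (t, ⟨1, hw⟩) = 1) :
    ∃ D : Set (GenLoop (Fin k) H 1), D.Countable ∧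
      ∀ g : GenLoop (Fin k) H 1, ∃ f ∈ D, GenLoop.Homotopic f g := by
  have hnhds : ∀ f : GenLoop (Fin k) H 1,
      {g : GenLoop (Fin k) H 1 | ∀ x, g.1 x * (f.1 x)⁻¹ ∈ W} ∈ 𝓝 f := by
    intro f
    have hopen : IsOpen {g : GenLoop (Fin k) H 1 | ∀ x, g.1 x * (f.1 x)⁻¹ ∈ W} := by
      have h2 : IsOpen {u : C(Fin k → I, H) | MapsTo u univ W} :=
        ContinuousMap.isOpen_setOfPred_mapsTo isCompact_univ hW
      have h3 : Continuous fun g : GenLoop (Fin k) H 1 => g.1 * (f.1)⁻¹ :=
        continuous_subtype_val.mul continuous_const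
      have h4 := h2.preimage h3
      convert h4 using 1
      ext g
      simp [MapsTo]
    refine hopen.mem_nhds ?_
    intro x
    simp [hW1]
  obtain ⟨D, hD, hcov⟩ := TopologicalSpace.countable_cover_nhds hnhds
  refine ⟨D, hD, fun g => ?_⟩
  have hg : g ∈ ⋃ f ∈ D, {g : GenLoop (Fin k) H 1 | ∀ x, g.1 x * (f.1 x)⁻¹ ∈ W} := by
    rw [hcov]
    trivial
  simp only [mem_iUnion] at hg
  obtain ⟨f, hf, hfg⟩ := hg
  exact ⟨f, hf, homotopic_of_close h hh h0 h1 hid f g hfg⟩

end Pool.Agent.Helper546_sympct
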