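import Pool.Agent.Helper546_sympct.Group

/-!
# The isotopy `φ_t = (1 + (P + t (1 - P)) (φ - 1)) ∘ (1 + (1 - t) P (φ - 1))⁻¹`
-/

set_option autoImplicit false

open Set Filter Topology
open scoped ContDiff unitInterval

noncomputable section

namespace Pool.Agent.Helper546_sympct

variable {V : Type} [NormedAddCommGroup V] [NormedSpace ℝ V] {Ω : V → V → ℝ}

/-- `P + P^* = 1`, where `P^*` is the adjoint of `P` with respect to the form `Ω` -/
def HalfAdjoint (Ω : V → V → ℝ) (P : V →L[ℝ] V) : Prop := ∀ u v, Ω (P u) v + Ω u (P v) = Ω u v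

/-- no linear map `P (dφ(z) - 1)` has a real eigenvalue `≤ -1` -/
def Good (P : V →L[ℝ] V) (φ : SympCt Ω) : Prop :=
  ∀ z, ∀ c : ℝ, c ≤ -1 → ∀ v, P (fderiv ℝ φ.toEquiv z v - v) = c • v → v = 0

/-- the map `1 + Q (φ - 1)` -/
def pert (Q : V →L[ℝ] V) (φ : SympCt Ω) (z : V) : V := z + Q (φ.toEquiv z - z)

theorem pert_contDiff (Q : V →L[ℝ] V) (φ : SympCt Ω) : ContDiff ℝ ∞ (pert Q φ) :=
  contDiff_id.add (Q.contDiff.comp (φ.smooth.sub contDiff_id))

theorem hasFDerivAt_pert (Q : V →L[ℝ] V) (φ : SympCt Ω) (z : V) :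
    HasFDerivAt (pert Q φ) (ContinuousLinearMap.id ℝ _ +
      Q.comp (fderiv ℝ φ.toEquiv z - ContinuousLinearMap.id ℝ _)) z := by
  have h1 : HasFDerivAt (fun z => φ.toEquiv z - z)
      (fderiv ℝ φ.toEquiv z - ContinuousLinearMap.id ℝ _) z :=
    (φ.differentiableAt z).hasFDerivAt.sub (hasFDerivAt_id z)
  exact (hasFDerivAt_id z).add (Q.hasFDerivAt.comp z h1)

theorem fderiv_pert (Q : V →L[ℝ] V) (φ : SympCt Ω) (z v : V) :
    fderiv ℝ (pert Q φ) z v = v + Q (fderiv ℝ φ.toEquiv z v - v) := by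
  rw [(hasFDerivAt_pert Q φ z).fderiv]
  simp

theorem pert_zero (φ : SympCt Ω) (z : V) : pert 0 φ z = z := by simp [pert]

theorem pert_one (φ : SympCt Ω) (z : V) :
    pert (ContinuousLinearMap.id ℝ V) φ z = φ.toEquiv z := by simp [pert]

theorem pert_out {Q : V →L[ℝ] V} {φ : SympCt Ω} {z : V} (h : φ.toEquiv z = z) :
    pert Q φ z = z := by
  simp [pert, h]

/-- the inverse of `pert Q φ` -/
def pertInv (Q : V →L[ℝ] V) (φ : SympCt Ω) : V → V := Function.invFun (pert Q φ)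

/-- all derivatives of `pert Q φ` are injective -/
def Inj (Q : V →L[ℝ] V) (φ : SympCt Ω) : Prop :=
  ∀ z v, v + Q (fderiv ℝ φ.toEquiv z v - v) = 0 → v = 0

section fin

variable [FiniteDimensional ℝ V]

theorem pert_fderiv_equiv {Q : V →L[ℝ] V} {φ : SympCt Ω} (h : Inj Q φ) (z : V) :
    ∃ A : V ≃L[ℝ] V, (A : V →L[ℝ] V) = fderiv ℝ (pert Q φ) z := by
  have hinj : Function.Injective ((fderiv ℝ (pert Q φ) z : V →L[ℝ] V) : V →ₗ[ℝ] V) := by
    rw [injective_iff_map_eq_zero]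
    intro v hv
    refine h z v ?_
    rw [← fderiv_pert]
    exact hv
  refine ⟨(LinearEquiv.ofInjectiveEndo _ hinj).toContinuousLinearEquiv, ?_⟩
  exact ContinuousLinearMap.ext fun v => rfl

theorem pert_bijective {Q : V →L[ℝ] V} {φ : SympCt Ω} (h : Inj Q φ) :
    Function.Bijective (pert Q φ) := by
  obtain ⟨K, hK, hKφ⟩ := φ.compact_support
  exact bijective_of_compact hK ((pert_contDiff Q φ).of_le (by simp))
    (pert_fderiv_equiv h) (fun x hx => pert_out (hKφ x hx))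

theorem pertInv_pert {Q : V →L[ℝ] V} {φ : SympCt Ω} (h : Inj Q φ) (z : V) :
    pertInv Q φ (pert Q φ z) = z :=
  Function.leftInverse_invFun (pert_bijective h).1 z

theorem pert_pertInv {Q : V →L[ℝ] V} {φ : SympCt Ω} (h : Inj Q φ) (z : V) :
    pert Q φ (pertInv Q φ z) = z :=
  Function.rightInverse_invFun (pert_bijective h).2 z

theorem pertInv_out {Q : V →L[ℝ] V} {φ : SympCt Ω} (hi : Inj Q φ) {z : V}
    (h : φ.toEquiv z = z) : pertInv Q φ z = z := by
  have h1 := pertInv_pert hi z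
  rwa [pert_out h] at h1

section family

variable {T : Type} [TopologicalSpace T] {K : Set V}

theorem cfam_clm_param {m : ℕ} {f : T → V → V} (hf : CFam m f) {Q : T → V →L[ℝ] V}
    (hQ : Continuous Q) : CFam m (fun t x => Q t (f t x)) := by
  have h1 : CFam m (fun (t : T) (_ : V) => Q t) := by
    refine ⟨fun t => contDiff_const, fun j hj => ?_⟩
    rcases j with _ | j
    · have : (fun p : T × V => iteratedFDeriv ℝ 0 (fun _ : V => Q p.1) p.2) = fun p : T × V =>
          (continuousMultilinearCurryFin0 ℝ V (V →L[ℝ] V)).symm (Q p.1) := by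
        funext p
        rw [iteratedFDeriv_zero_eq_comp]
        rfl
      rw [this]
      exact (LinearIsometryEquiv.continuous _).comp (hQ.comp continuous_fst)
    · have : (fun p : T × V => iteratedFDeriv ℝ (j + 1) (fun _ : V => Q p.1) p.2) =
          fun _ => 0 := by
        funext p
        rw [iteratedFDeriv_succ_const]
        rfl
      rw [this]
      exact continuous_const
  have h2 := CFam.prodMk m h1 hf
  exact CFam.comp_contDiff (h := fun p : (V →L[ℝ] V) × V => p.1 p.2)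
    (isBoundedBilinearMap_apply.contDiff) h2

theorem pert_cfam {Φ : T → SuppIn Ω K} (hΦ : Continuous Φ) {Q : T → V →L[ℝ] V}
    (hQ : Continuous Q) (m : ℕ) : CFam m (fun t => pert (Q t) (Φ t).1) := by
  have h1 : CFam m (fun t => ((Φ t).1.toEquiv : V → V)) := cfam_of_continuous hΦ m
  have hid : CFam m (fun (_ : T) => (id : V → V)) := cfam_const contDiff_id
  have h2 : CFam m (fun t (z : V) => (Φ t).1.toEquiv z + ((-1 : ℝ)) • z) :=
    h1.add (hid.smul_param (c := fun _ => (-1 : ℝ)) continuous_const)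
  have h3 := hid.add (cfam_clm_param h2 hQ)
  have h4 : (fun t => pert (Q t) (Φ t).1) = fun t (z : V) =>
      id z + Q t ((Φ t).1.toEquiv z + ((-1 : ℝ)) • z) := by
    funext t z
    simp [pert, sub_eq_add_neg]
  rw [h4]
  exact h3

theorem pertInv_cfam (hK : IsCompact K) {Φ : T → SuppIn Ω K} (hΦ : Continuous Φ)
    {Q : T → V →L[ℝ] V} (hQ : Continuous Q) (hi : ∀ t, Inj (Q t) (Φ t).1) (m : ℕ) :
    CFam m (fun t => pertInv (Q t) (Φ t).1) := by
  have : CompleteSpace V := FiniteDimensional.complete ℝ V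
  refine CFam.inverse m (f := fun t => pert (Q t) (Φ t).1) (pert_cfam hΦ hQ (m + 1))
    (fun t x => pertInv_pert (hi t) x) (fun t x => pert_pertInv (hi t) x)
    (fun t x => pert_fderiv_equiv (hi t) x) ?_
  exact continuous_inverse hK (f := fun t => pert (Q t) (Φ t).1)
    (g := fun t => pertInv (Q t) (Φ t).1) (pert_cfam hΦ hQ 0).continuous
    (fun t x => pertInv_pert (hi t) x) (fun t x => pert_pertInv (hi t) x)
    (fun t x hx => pert_out ((Φ t).2 x hx))

end family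

theorem pertInv_contDiff {Q : V →L[ℝ] V} {φ : SympCt Ω} (hi : Inj Q φ) :
    ContDiff ℝ ∞ (pertInv Q φ) := by
  obtain ⟨K, hK, h⟩ := φ.compact_support
  rw [contDiff_infty]
  intro m
  exact (pertInv_cfam (T := Unit) hK (Φ := fun _ => (⟨φ, h⟩ : SuppIn Ω K)) continuous_const
    (Q := fun _ => Q) continuous_const (fun _ => hi) m).1 ()

end fin

/-- the first linear map of the isotopy -/
def lin1 (P : V →L[ℝ] V) (t : ℝ) : V →L[ℝ] V := (1 - t) • P

/-- the second linear map of the isotopy -/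
def lin2 (P : V →L[ℝ] V) (t : ℝ) : V →L[ℝ] V := P + t • (ContinuousLinearMap.id ℝ V - P)

theorem lin1_apply (P : V →L[ℝ] V) (t : ℝ) (v : V) : lin1 P t v = (1 - t) • P v := rfl

theorem lin2_apply (P : V →L[ℝ] V) (t : ℝ) (v : V) : lin2 P t v = P v + t • (v - P v) := rfl

theorem lin2_eq (P : V →L[ℝ] V) (t : ℝ) (v : V) : lin2 P t v = lin1 P t v + t • v := by
  rw [lin1_apply, lin2_apply, smul_sub, sub_smul, one_smul]
  abel

theorem inj_lin1 {P : V →L[ℝ] V} {φ : SympCt Ω} (hg : Good P φ) {t : ℝ} (h0 : 0 ≤ t)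
    (h1 : t ≤ 1) : Inj (lin1 P t) φ := by
  intro z v hv
  rw [lin1_apply] at hv
  rcases eq_or_lt_of_le h1 with h | h
  · rw [h] at hv
    simpa using hv
  · have hp : 0 < 1 - t := by linarith
    refine hg z (-(1 - t)⁻¹) ?_ v ?_
    · have h2 : 1 ≤ (1 - t)⁻¹ := (one_le_inv₀ hp).2 (by linarith)
      linarith
    · have h3 : (1 - t) • P (fderiv ℝ φ.toEquiv z v - v) = -v := by
        rw [← add_eq_zero_iff_eq_neg, add_comm]
        exact hv
      have h4 : P (fderiv ℝ φ.toEquiv z v - v) =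
          (1 - t)⁻¹ • ((1 - t) • P (fderiv ℝ φ.toEquiv z v - v)) := by
        rw [smul_smul, inv_mul_cancel₀ hp.ne', one_smul]
      rw [h4, h3, smul_neg, neg_smul]

section form

variable (hΩ : IsSympForm Ω) {P : V →L[ℝ] V} (hP : HalfAdjoint Ω P)

include hΩ

theorem form_sub_left (u v w : V) : Ω (u - v) w = Ω u w - Ω v w := by
  have h := hΩ.add_left u ((-1 : ℝ) • v) w
  rw [hΩ.smul_left] at h
  rw [sub_eq_add_neg, ← neg_one_smul ℝ v, h]
  ring

theorem form_sub_right (u v w : V) : Ω u (v - w) = Ω u v - Ω u w := by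
  have h := hΩ.add_right u v ((-1 : ℝ) • w)
  rw [hΩ.smul_right] at h
  rw [sub_eq_add_neg, ← neg_one_smul ℝ w, h]
  ring

include hP

/-- the identity behind the isotopy -/
theorem form_lin (t : ℝ) (φ : SympCt Ω) (z a b : V) :
    Ω (fderiv ℝ (pert (lin2 P t) φ) z a) (fderiv ℝ (pert (lin2 P t) φ) z b) =
      Ω (fderiv ℝ (pert (lin1 P t) φ) z a) (fderiv ℝ (pert (lin1 P t) φ) z b) := by
  have hs := φ.symplectic z a b
  rw [fderiv_pert, fderiv_pert, fderiv_pert, fderiv_pert, lin2_eq, lin2_eq, lin1_apply, lin1_apply]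
  set a' := fderiv ℝ φ.toEquiv z a - a with ha'
  set b' := fderiv ℝ φ.toEquiv z b - b with hb'
  have ha : fderiv ℝ φ.toEquiv z a = a + a' := by rw [ha']; abel
  have hb : fderiv ℝ φ.toEquiv z b = b + b' := by rw [hb']; abel
  rw [ha, hb] at hs
  have hp := hP a' b'
  simp only [hΩ.add_left, hΩ.add_right, hΩ.smul_left, hΩ.smul_right] at hs ⊢
  linear_combination t * (1 - t) * hp + t * hs

theorem inj_lin2 [FiniteDimensional ℝ V] {φ : SympCt Ω} (hg : Good P φ) {t : ℝ} (h0 : 0 ≤ t)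
    (h1 : t ≤ 1) : Inj (lin2 P t) φ := by
  intro z u hu
  rw [← fderiv_pert] at hu
  obtain ⟨A, hA⟩ := pert_fderiv_equiv (inj_lin1 hg h0 h1) z
  have h2 : ∀ w, Ω (fderiv ℝ (pert (lin1 P t) φ) z u) w = 0 := by
    intro w
    have h3 : w = fderiv ℝ (pert (lin1 P t) φ) z (A.symm w) := by
      rw [← hA]
      exact (A.apply_symm_apply w).symm
    rw [h3, ← form_lin hΩ hP, hu]
    have h4 := hΩ.smul_left 0 0 (fderiv ℝ (pert (lin2 P t) φ) z (A.symm w))
    rw [zero_smul, zero_mul] at h4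
    exact h4
  have h5 := hΩ.nondeg _ h2
  rw [fderiv_pert] at h5
  exact inj_lin1 hg h0 h1 z u h5

end form

/-- the isotopy -/
def isoFun (P : V →L[ℝ] V) (t : ℝ) (φ : SympCt Ω) (z : V) : V :=
  pert (lin2 P t) φ (pertInv (lin1 P t) φ z)

/-- the inverse of the isotopy -/
def isoInv (P : V →L[ℝ] V) (t : ℝ) (φ : SympCt Ω) (z : V) : V :=
  pert (lin1 P t) φ (pertInv (lin2 P t) φ z)

section iso

variable [FiniteDimensional ℝ V] {t : ℝ} {P : V →L[ℝ] V}

theorem iso_left (hΩ : IsSympForm Ω) (hP : HalfAdjoint Ω P) (h0 : 0 ≤ t) (h1 : t ≤ 1)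
    {φ : SympCt Ω} (hφ : Good P φ) (z : V) : isoInv P t φ (isoFun P t φ z) = z := by
  rw [isoInv, isoFun, pertInv_pert (inj_lin2 hΩ hP hφ h0 h1), pert_pertInv (inj_lin1 hφ h0 h1)]

theorem iso_right (hΩ : IsSympForm Ω) (hP : HalfAdjoint Ω P) (h0 : 0 ≤ t) (h1 : t ≤ 1)
    {φ : SympCt Ω} (hφ : Good P φ) (z : V) : isoFun P t φ (isoInv P t φ z) = z := by
  rw [isoInv, isoFun, pertInv_pert (inj_lin1 hφ h0 h1), pert_pertInv (inj_lin2 hΩ hP hφ h0 h1)]

theorem iso_contDiff (h0 : 0 ≤ t) (h1 : t ≤ 1) {φ : SympCt Ω} (hφ : Good P φ) :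
    ContDiff ℝ ∞ (isoFun P t φ) :=
  (pert_contDiff _ φ).comp (pertInv_contDiff (inj_lin1 hφ h0 h1))

theorem isoInv_contDiff (hΩ : IsSympForm Ω) (hP : HalfAdjoint Ω P) (h0 : 0 ≤ t) (h1 : t ≤ 1)
    {φ : SympCt Ω} (hφ : Good P φ) : ContDiff ℝ ∞ (isoInv P t φ) :=
  (pert_contDiff _ φ).comp (pertInv_contDiff (inj_lin2 hΩ hP hφ h0 h1))

theorem iso_out (h0 : 0 ≤ t) (h1 : t ≤ 1) {φ : SympCt Ω} (hφ : Good P φ) {z : V}
    (h : φ.toEquiv z = z) : isoFun P t φ z = z := by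
  rw [isoFun, pertInv_out (inj_lin1 hφ h0 h1) h, pert_out h]

theorem fderiv_pert_pertInv (h0 : 0 ≤ t) (h1 : t ≤ 1) {φ : SympCt Ω} (hφ : Good P φ) (z u : V) :
    fderiv ℝ (pert (lin1 P t) φ) (pertInv (lin1 P t) φ z)
      (fderiv ℝ (pertInv (lin1 P t) φ) z u) = u := by
  have hd2 : DifferentiableAt ℝ (pertInv (lin1 P t) φ) z :=
    ((pertInv_contDiff (inj_lin1 hφ h0 h1)).differentiable (by simp)) _
  have hd3 : DifferentiableAt ℝ (pert (lin1 P t) φ) (pertInv (lin1 P t) φ z) :=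
    ((pert_contDiff _ φ).differentiable (by simp)) _
  have h3 : (fderiv ℝ (pert (lin1 P t) φ) (pertInv (lin1 P t) φ z)).comp
      (fderiv ℝ (pertInv (lin1 P t) φ) z) = ContinuousLinearMap.id ℝ _ := by
    rw [← fderiv_comp z hd3 hd2]
    have : (pert (lin1 P t) φ ∘ pertInv (lin1 P t) φ) = id := by
      funext x
      exact pert_pertInv (inj_lin1 hφ h0 h1) x
    rw [this, fderiv_id]
  exact DFunLike.congr_fun h3 u

theorem fderiv_iso (h0 : 0 ≤ t) (h1 : t ≤ 1) {φ : SympCt Ω} (hφ : Good P φ) (z u : V) :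
    fderiv ℝ (isoFun P t φ) z u = fderiv ℝ (pert (lin2 P t) φ) (pertInv (lin1 P t) φ z)
      (fderiv ℝ (pertInv (lin1 P t) φ) z u) := by
  have hd1 : DifferentiableAt ℝ (pert (lin2 P t) φ) (pertInv (lin1 P t) φ z) :=
    ((pert_contDiff _ φ).differentiable (by simp)) _
  have hd2 : DifferentiableAt ℝ (pertInv (lin1 P t) φ) z :=
    ((pertInv_contDiff (inj_lin1 hφ h0 h1)).differentiable (by simp)) _
  have h2 : fderiv ℝ (isoFun P t φ) z = (fderiv ℝ (pert (lin2 P t) φ)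
      (pertInv (lin1 P t) φ z)).comp (fderiv ℝ (pertInv (lin1 P t) φ) z) :=
    fderiv_comp z hd1 hd2
  rw [h2, ContinuousLinearMap.comp_apply]

theorem iso_symplectic (hΩ : IsSympForm Ω) (hP : HalfAdjoint Ω P) (h0 : 0 ≤ t) (h1 : t ≤ 1)
    {φ : SympCt Ω} (hφ : Good P φ) (z v w : V) :
    Ω (fderiv ℝ (isoFun P t φ) z v) (fderiv ℝ (isoFun P t φ) z w) = Ω v w := by
  rw [fderiv_iso h0 h1 hφ, fderiv_iso h0 h1 hφ, form_lin hΩ hP,
    fderiv_pert_pertInv h0 h1 hφ, fderiv_pert_pertInv h0 h1 hφ]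

/-- the isotopy, as a compactly supported symplectomorphism -/
def isoSymp (hΩ : IsSympForm Ω) (hP : HalfAdjoint Ω P) (h0 : 0 ≤ t) (h1 : t ≤ 1)
    (φ : SympCt Ω) (hφ : Good P φ) : SympCt Ω where
  toEquiv := ⟨isoFun P t φ, isoInv P t φ, iso_left hΩ hP h0 h1 hφ, iso_right hΩ hP h0 h1 hφ⟩
  smooth := iso_contDiff h0 h1 hφ
  smooth_symm := isoInv_contDiff hΩ hP h0 h1 hφ
  symplectic := iso_symplectic hΩ hP h0 h1 hφ
  compact_support := by
    obtain ⟨K, hK, h⟩ := φ.compact_support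
    exact ⟨K, hK, fun z hz => iso_out h0 h1 hφ (h z hz)⟩

/-- the isotopy stays in the set -/
theorem iso_good (hΩ : IsSympForm Ω) (hP : HalfAdjoint Ω P) (h0 : 0 ≤ t) (h1 : t ≤ 1)
    (φ : SympCt Ω) (hφ : Good P φ) : Good P (isoSymp hΩ hP h0 h1 φ hφ) := by
  intro z c hc w hw
  have hw' : P (fderiv ℝ (isoFun P t φ) z w - w) = c • w := hw
  rw [fderiv_iso h0 h1 hφ] at hw'
  set v := fderiv ℝ (pertInv (lin1 P t) φ) z w with hv
  set y := pertInv (lin1 P t) φ z with hy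
  have hwv : w = fderiv ℝ (pert (lin1 P t) φ) y v := (fderiv_pert_pertInv h0 h1 hφ z w).symm
  rw [hwv, fderiv_pert, fderiv_pert, lin2_eq, lin1_apply] at hw'
  set d := fderiv ℝ φ.toEquiv y v - v with hd
  have h2 : v + ((1 - t) • P d + t • d) - (v + (1 - t) • P d) = t • d := by abel
  rw [h2, map_smul] at hw'
  -- `t P d = c (v + (1 - t) P d)`
  have hk : 0 < t - c * (1 - t) := by nlinarith
  have h3 : (t - c * (1 - t)) • P d = c • v := by
    rw [sub_smul, hw', smul_add, smul_smul]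
    abel
  have h4 : P d = (c / (t - c * (1 - t))) • v := by
    have h5 : P d = (t - c * (1 - t))⁻¹ • ((t - c * (1 - t)) • P d) := by
      rw [smul_smul, inv_mul_cancel₀ hk.ne', one_smul]
    rw [h5, h3, smul_smul]
    congr 1
    field_simp
  have h6 : c / (t - c * (1 - t)) ≤ -1 := by
    rw [div_le_iff₀ hk]
    nlinarith
  have h7 := hφ y _ h6 v h4
  rw [hwv, h7, map_zero]

end iso

section param

variable [FiniteDimensional ℝ V] {P : V →L[ℝ] V}

/-- the isotopy, in the group of symplectomorphisms with support in `K` -/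
def iso (hΩ : IsSympForm Ω) (hP : HalfAdjoint Ω P) {K : Set V} (t : I)
    (φ : {φ : SuppIn Ω K // Good P φ.1}) : SuppIn Ω K :=
  ⟨isoSymp hΩ hP t.2.1 t.2.2 φ.1.1 φ.2, fun z hz => iso_out t.2.1 t.2.2 φ.2 (φ.1.2 z hz)⟩

theorem lin1_zero : lin1 P 0 = P := by simp [lin1]

theorem lin2_zero : lin2 P 0 = P := by simp [lin2]

theorem lin1_one : lin1 P 1 = 0 := by simp [lin1]

theorem lin2_one : lin2 P 1 = ContinuousLinearMap.id ℝ V := by simp [lin2]

theorem iso_zero (hΩ : IsSympForm Ω) (hP : HalfAdjoint Ω P) {K : Set V}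
    (φ : {φ : SuppIn Ω K // Good P φ.1}) : iso hΩ hP 0 φ = 1 := by
  refine SuppIn.ext fun z => ?_
  show isoFun P ((0 : I) : ℝ) φ.1.1 z = z
  have h : ((0 : I) : ℝ) = 0 := rfl
  have h2 := inj_lin1 φ.2 (le_refl (0 : ℝ)) zero_le_one
  rw [lin1_zero] at h2
  rw [h, isoFun, lin1_zero, lin2_zero]
  exact pert_pertInv h2 z

theorem iso_one (hΩ : IsSympForm Ω) (hP : HalfAdjoint Ω P) {K : Set V}
    (φ : {φ : SuppIn Ω K // Good P φ.1}) : iso hΩ hP 1 φ = φ.1 := by
  refine SuppIn.ext fun z => ?_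
  show isoFun P ((1 : I) : ℝ) φ.1.1 z = φ.1.1.toEquiv z
  have h : ((1 : I) : ℝ) = 1 := rfl
  have h2 := inj_lin1 φ.2 zero_le_one (le_refl (1 : ℝ))
  rw [lin1_one] at h2
  rw [h, isoFun, lin1_one, lin2_one, pert_one]
  have h3 := pertInv_pert h2 z
  rw [pert_zero] at h3
  rw [h3]

theorem iso_id (hΩ : IsSympForm Ω) (hP : HalfAdjoint Ω P) {K : Set V} (t : I)
    (h : Good P (1 : SuppIn Ω K).1) :
    iso hΩ hP t (⟨1, h⟩ : {φ : SuppIn Ω K // Good P φ.1}) = 1 := by
  refine SuppIn.ext fun z => ?_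
  exact iso_out t.2.1 t.2.2 h rfl

/-- the isotopy is jointly continuous -/
theorem continuous_iso (hΩ : IsSympForm Ω) (hP : HalfAdjoint Ω P) {K : Set V} (hK : IsCompact K) :
    Continuous fun p : I × {φ : SuppIn Ω K // Good P φ.1} => iso hΩ hP p.1 p.2 := by
  rw [continuous_iff]
  intro m
  have hΦ : Continuous fun p : I × {φ : SuppIn Ω K // Good P φ.1} => p.2.1 :=
    continuous_subtype_val.comp continuous_snd
  have hs1 : Continuous fun p : I × {φ : SuppIn Ω K // Good P φ.1} => lin1 P (p.1 : ℝ) := by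
    have h1 : Continuous fun t : ℝ => lin1 P t := by
      unfold lin1
      fun_prop
    exact h1.comp (continuous_subtype_val.comp continuous_fst)
  have hs2 : Continuous fun p : I × {φ : SuppIn Ω K // Good P φ.1} => lin2 P (p.1 : ℝ) := by
    have h1 : Continuous fun t : ℝ => lin2 P t := by
      unfold lin2
      fun_prop
    exact h1.comp (continuous_subtype_val.comp continuous_fst)
  have h1 := pert_cfam hΦ hs2 m
  have h2 := pertInv_cfam hK hΦ hs1 (fun p => inj_lin1 p.2.2 p.1.2.1 p.1.2.2) m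
  exact CFam.comp m
    (g := fun p : I × {φ : SuppIn Ω K // Good P φ.1} => pert (lin2 P (p.1 : ℝ)) p.2.1.1)
    (f := fun p : I × {φ : SuppIn Ω K // Good P φ.1} => pertInv (lin1 P (p.1 : ℝ)) p.2.1.1) h1 h2

end param

theorem good_id (P : V →L[ℝ] V) : Good P (idSymp Ω) := by
  intro z c hc v hv
  have h1 : fderiv ℝ ((idSymp Ω).toEquiv) z v = v := by
    rw [show ((idSymp Ω).toEquiv : V → V) = id from rfl, fderiv_id]
    rfl
  rw [h1, sub_self, map_zero] at hv
  rcases smul_eq_zero.1 hv.symm with h | h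
  · linarith
  · exact h

end Pool.Agent.Helper546_sympct
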