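import Pool.Agent.Helper546_sympct.Open
import Pool.Agent.Helper546_sympct.Homotopy

/-!
# The direct limit
-/

set_option autoImplicit false
set_option linter.unusedSectionVars false

open Set Filter Topology
open scoped ContDiff unitInterval

noncomputable section

namespace Pool.Agent.Helper546_sympct

variable {V : Type} [NormedAddCommGroup V] [NormedSpace ℝ V] {Ω : V → V → ℝ}
variable [FiniteDimensional ℝ V]

variable (V) in
/-- the closed ball of radius `m` -/
def ball (m : ℕ) : Set V := Metric.closedBall 0 m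

theorem ball_compact (m : ℕ) : IsCompact (ball V m) := by
  have : ProperSpace V := FiniteDimensional.proper ℝ _
  exact isCompact_closedBall _ _

theorem ball_mono {m k : ℕ} (h : m ≤ k) : ball V m ⊆ ball V k :=
  Metric.closedBall_subset_closedBall (by exact_mod_cast h)

theorem exists_ball {K : Set V} (hK : IsCompact K) : ∃ m, K ⊆ ball V m := by
  obtain ⟨R, hR⟩ := hK.isBounded.subset_closedBall (0 : V)
  obtain ⟨m, hm⟩ := exists_nat_ge R
  exact ⟨m, hR.trans (Metric.closedBall_subset_closedBall hm)⟩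

/-- the symplectomorphisms which are the identity outside `K` -/
def supp (Ω : V → V → ℝ) (K : Set V) : Set (SympCt Ω) := {φ | ∀ z, z ∉ K → φ.toEquiv z = z}

theorem supp_mono {K L : Set V} (h : K ⊆ L) : supp Ω K ⊆ supp Ω L :=
  fun _ hφ z hz => hφ z fun hzK => hz (h hzK)

theorem exists_supp (φ : SympCt Ω) : ∃ m, φ ∈ supp Ω (ball V m) := by
  obtain ⟨K, hK, h⟩ := φ.compact_support
  obtain ⟨m, hm⟩ := exists_ball hK
  exact ⟨m, supp_mono hm h⟩

theorem continuous_incl {K : Set V} (hK : IsCompact K) :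
    Continuous (fun φ : SuppIn Ω K => φ.1) := by
  rw [continuous_iff_coinduced_le]
  exact le_iSup (fun K : {K : Set V // IsCompact K} =>
    TopologicalSpace.coinduced (fun φ : SuppIn Ω K.1 => φ.1) (smoothTopology Ω K.1)) ⟨K, hK⟩

/-- continuous maps from the direct limit -/
theorem continuous_of_stages {Y : Type} [TopologicalSpace Y] {f : SympCt Ω → Y}
    (h : ∀ K : Set V, IsCompact K → Continuous fun φ : SuppIn Ω K => f φ.1) : Continuous f := by
  rw [continuous_iSup_dom]
  rintro ⟨K, hK⟩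
  rw [continuous_coinduced_dom]
  exact h K hK

/-- open sets of the direct limit -/
theorem isOpen_of_stages {S : Set (SympCt Ω)}
    (h : ∀ K : Set V, IsCompact K → IsOpen {φ : SuppIn Ω K | φ.1 ∈ S}) : IsOpen S := by
  rw [isOpen_iSup_iff]
  rintro ⟨K, hK⟩
  rw [isOpen_coinduced]
  exact h K hK

theorem continuous_jet (j : ℕ) : Continuous (jet j : SympCt Ω → C(V, V [×j]→L[ℝ] V)) :=
  continuous_of_stages fun K _ => (continuous_pi_iff.1 (inducing_jets K).continuous) j

/-- an element of a stage -/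
def toSupp {K : Set V} (φ : SympCt Ω) (h : φ ∈ supp Ω K) : SuppIn Ω K := ⟨φ, h⟩

/-- continuity of the lift to a stage -/
theorem continuous_lift {X : Type} [TopologicalSpace X] {K : Set V} {f : X → SympCt Ω}
    (hf : Continuous f) (hK : ∀ x, f x ∈ supp Ω K) :
    Continuous fun x => toSupp (f x) (hK x) := by
  rw [(inducing_jets K).continuous_iff, continuous_pi_iff]
  intro j
  exact (continuous_jet j).comp hf

/-- a compact set lies in a stage -/
theorem exists_stage {C : Set (SympCt Ω)} (hC : IsCompact C) :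
    ∃ m, C ⊆ supp Ω (ball V m) := by
  by_contra hcon
  push Not at hcon
  have hx : ∀ m, ∃ φ ∈ C, φ ∉ supp Ω (ball V m) := by
    intro m
    exact Set.not_subset.1 (hcon m)
  choose x hxC hx using hx
  have hopen : ∀ j, IsOpen {φ : SympCt Ω | ∀ m, j ≤ m → φ ≠ x m} := by
    intro j
    refine isOpen_of_stages fun K hK => ?_
    obtain ⟨l, hl⟩ := exists_ball hK
    have hfin : {φ : SuppIn Ω K | ∃ m, j ≤ m ∧ φ.1 = x m}.Finite := by
      have hsub : (fun φ : SuppIn Ω K => φ.1) ''
          {φ : SuppIn Ω K | ∃ m, j ≤ m ∧ φ.1 = x m} ⊆ x '' (Iio l) := by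
        rintro _ ⟨φ, ⟨m, _, hφ⟩, rfl⟩
        refine ⟨m, ?_, hφ.symm⟩
        by_contra hml
        simp only [mem_Iio, not_lt] at hml
        apply hx m
        rw [← hφ]
        exact supp_mono (hl.trans (ball_mono hml)) φ.2
      exact Set.Finite.of_finite_image (((Set.finite_Iio l).image x).subset hsub)
        (Subtype.val_injective.injOn)
    have hcl := hfin.isClosed.isOpen_compl
    convert hcl using 1
    ext φ
    simp only [mem_ofPred_eq, mem_compl_iff, not_exists, not_and]
  have hcov : C ⊆ ⋃ j, {φ : SympCt Ω | ∀ m, j ≤ m → φ ≠ x m} := by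
    intro φ _
    obtain ⟨j, hj⟩ := exists_supp φ
    refine mem_iUnion.2 ⟨j, fun m hm he => hx m ?_⟩
    rw [← he]
    exact supp_mono (ball_mono hm) hj
  have hdir : Directed (· ⊆ ·) fun j : ℕ => {φ : SympCt Ω | ∀ m, j ≤ m → φ ≠ x m} := by
    refine directed_of_isDirected_le ?_
    intro i j hij φ hφ m hm
    exact hφ m (hij.trans hm)
  obtain ⟨j, hj⟩ := hC.elim_directed_cover _ hopen hcov hdir
  exact hj (hxC j) j le_rfl rfl

/-- one half of the identity -/
def half (V : Type) [NormedAddCommGroup V] [NormedSpace ℝ V] : V →L[ℝ] V :=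
  (1 / 2 : ℝ) • ContinuousLinearMap.id ℝ V

theorem halfAdjoint_half (hΩ : IsSympForm Ω) : HalfAdjoint Ω (half V) := by
  intro u v
  show Ω ((1 / 2 : ℝ) • u) v + Ω u ((1 / 2 : ℝ) • v) = Ω u v
  rw [hΩ.smul_left, hΩ.smul_right]
  ring

/-- countably many homotopy classes in a stage -/
theorem countable_stage (hΩ : IsSympForm Ω) (m k : ℕ) :
    ∃ D : Set (GenLoop (Fin k) (SuppIn Ω (ball V m)) 1), D.Countable ∧
      ∀ g : GenLoop (Fin k) (SuppIn Ω (ball V m)) 1, ∃ f ∈ D, GenLoop.Homotopic f g := by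
  have hK := ball_compact (V := V) m
  have hP := halfAdjoint_half hΩ
  have : IsTopologicalGroup (SuppIn Ω (ball V m)) := isTopologicalGroup hK
  exact countable_classes (W := {φ : SuppIn Ω (ball V m) | Good (half V) φ.1})
    (isOpen_good _ hK) (good_id _) (fun p => iso hΩ hP p.1 p.2) (continuous_iso hΩ hP hK)
    (fun w => iso_zero hΩ hP w) (fun w => iso_one hΩ hP w) (fun t hw => iso_id hΩ hP t hw)

/-- the loops of a stage in the direct limit -/
def push {k m : ℕ} (f : GenLoop (Fin k) (SuppIn Ω (ball V m)) 1) :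
    GenLoop (Fin k) (SympCt Ω) (idSymp Ω) :=
  ⟨⟨fun x => (f.1 x).1, (continuous_incl (ball_compact m)).comp f.1.continuous⟩, fun x hx => by
    show (f.1 x).1 = idSymp Ω
    have : f.1 x = 1 := f.2 x hx
    rw [this]
    rfl⟩

theorem push_homotopic {k m : ℕ} {f g : GenLoop (Fin k) (SuppIn Ω (ball V m)) 1}
    (h : GenLoop.Homotopic f g) : GenLoop.Homotopic (push f) (push g) := by
  obtain ⟨F⟩ := h
  refine ⟨⟨⟨⟨fun p => (F p).1, (continuous_incl (ball_compact m)).comp F.continuous⟩, ?_, ?_⟩, ?_⟩⟩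
  · intro x
    show (F (0, x)).1 = (f.1 x).1
    rw [F.apply_zero]
  · intro x
    show (F (1, x)).1 = (g.1 x).1
    rw [F.apply_one]
  · intro t x hx
    show (F (t, x)).1 = (f.1 x).1
    rw [F.eq_fst t hx]

theorem exists_push {k : ℕ} (g : GenLoop (Fin k) (SympCt Ω) (idSymp Ω)) :
    ∃ (m : ℕ) (f : GenLoop (Fin k) (SuppIn Ω (ball V m)) 1), push f = g := by
  obtain ⟨m, hm⟩ := exists_stage (isCompact_range g.1.continuous)
  have h1 : ∀ x, g.1 x ∈ supp Ω (ball V m) := fun x => hm (mem_range_self x)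
  refine ⟨m, ⟨⟨fun x => toSupp (g.1 x) (h1 x), continuous_lift g.1.continuous h1⟩,
    fun x hx => ?_⟩, ?_⟩
  · refine Subtype.ext ?_
    show g.1 x = idSymp Ω
    exact g.2 x hx
  · apply Subtype.ext
    ext x
    rfl

/-- **all homotopy groups of the group of compactly supported symplectomorphisms are countable** -/
theorem countable_homotopyGroup (hΩ : IsSympForm Ω) (k : ℕ) :
    Countable (HomotopyGroup (Fin k) (SympCt Ω) (idSymp Ω)) := by
  choose D hD hcov using fun m => countable_stage hΩ m k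
  have h1 : (⋃ m, (fun f => (Quotient.mk (GenLoop.Homotopic.setoid (Fin k) (idSymp Ω)) (push f) :
      HomotopyGroup (Fin k) (SympCt Ω) (idSymp Ω))) '' (D m)).Countable :=
    countable_iUnion fun m => (hD m).image _
  have h2 : (⋃ m, (fun f => (Quotient.mk (GenLoop.Homotopic.setoid (Fin k) (idSymp Ω)) (push f) :
      HomotopyGroup (Fin k) (SympCt Ω) (idSymp Ω))) '' (D m)) = univ := by
    rw [eq_univ_iff_forall]
    intro q
    induction q using Quotient.inductionOn with
    | h g =>
      obtain ⟨m, f, rfl⟩ := exists_push g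
      obtain ⟨f', hf', hff⟩ := hcov m f
      exact mem_iUnion.2 ⟨m, f', hf', Quotient.sound (push_homotopic hff)⟩
  rw [h2] at h1
  exact countable_univ_iff.1 h1

theorem countable_zerothHomotopy (hΩ : IsSympForm Ω) : Countable (ZerothHomotopy (SympCt Ω)) := by
  have h := countable_homotopyGroup hΩ 0
  exact (HomotopyGroup.pi0EquivZerothHomotopy (x := idSymp Ω)).symm.injective.countable

/-! ### The open contractible sets -/

theorem isOpen_goodSet (P : V →L[ℝ] V) : IsOpen {φ : SympCt Ω | Good P φ} :=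
  isOpen_of_stages fun _ hK => isOpen_good P hK

/-- the contraction -/
def contr (hΩ : IsSympForm Ω) {P : V →L[ℝ] V} (hP : HalfAdjoint Ω P)
    (φ : {φ : SympCt Ω // Good P φ}) (t : I) : {φ : SympCt Ω // Good P φ} :=
  ⟨isoSymp hΩ hP t.2.1 t.2.2 φ.1 φ.2, iso_good hΩ hP t.2.1 t.2.2 φ.1 φ.2⟩

theorem continuous_contr (hΩ : IsSympForm Ω) {P : V →L[ℝ] V} (hP : HalfAdjoint Ω P) :
    Continuous fun p : {φ : SympCt Ω // Good P φ} × I => contr hΩ hP p.1 p.2 := by
  rw [continuous_induced_rng]
  -- on the stages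
  have hst : ∀ K : Set V, IsCompact K → Continuous fun p : {φ : SuppIn Ω K // Good P φ.1} × I =>
      (contr hΩ hP ⟨p.1.1.1, p.1.2⟩ p.2).1 := by
    intro K hK
    exact (continuous_incl hK).comp ((continuous_iso hΩ hP hK).comp continuous_swap)
  -- each path is continuous
  have hpath : ∀ φ : {φ : SympCt Ω // Good P φ}, Continuous fun t : I => (contr hΩ hP φ t).1 := by
    intro φ
    obtain ⟨K, hK, h⟩ := φ.1.compact_support
    exact (hst K hK).comp (Continuous.prodMk_right
      (⟨⟨φ.1, h⟩, φ.2⟩ : {φ : SuppIn Ω K // Good P φ.1}))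
  let F : {φ : SympCt Ω // Good P φ} → C(I, SympCt Ω) := fun φ =>
    ⟨fun t => (contr hΩ hP φ t).1, hpath φ⟩
  have hF : Continuous F := by
    rw [continuous_def]
    intro O hO
    have h1 : IsOpen {φ : SympCt Ω | ∃ h : Good P φ, F ⟨φ, h⟩ ∈ O} := by
      refine isOpen_of_stages fun K hK => ?_
      have hc : Continuous fun φ : {φ : SuppIn Ω K // Good P φ.1} => F ⟨φ.1.1, φ.2⟩ := by
        refine ContinuousMap.continuous_of_continuous_uncurry _ ?_
        exact hst K hK
      have h2 := hO.preimage hc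
      have h3 := (isOpen_good (Ω := Ω) P hK).isOpenMap_subtype_val _ h2
      convert h3 using 1
      ext φ
      constructor
      · rintro ⟨h, h'⟩
        exact ⟨⟨φ, h⟩, h', rfl⟩
      · rintro ⟨⟨ψ, h⟩, h', rfl⟩
        exact ⟨h, h'⟩
    have h4 := h1.preimage (continuous_subtype_val (p := fun φ : SympCt Ω => Good P φ))
    convert h4 using 1
    ext φ
    exact ⟨fun h => ⟨φ.2, h⟩, fun ⟨_, h⟩ => h⟩
  exact ContinuousMap.continuous_uncurry_of_continuous ⟨F, hF⟩

theorem contractible_goodSet (hΩ : IsSympForm Ω) {P : V →L[ℝ] V} (hP : HalfAdjoint Ω P) :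
    ContractibleSpace {φ : SympCt Ω // Good P φ} := by
  rw [contractible_iff_id_nullhomotopic]
  refine ⟨⟨idSymp Ω, good_id P⟩, ⟨ContinuousMap.Homotopy.symm ⟨⟨fun p =>
    contr hΩ hP p.2 p.1, (continuous_contr hΩ hP).comp continuous_swap⟩, ?_, ?_⟩⟩⟩
  · intro φ
    refine Subtype.ext ?_
    obtain ⟨K, hK, h⟩ := φ.1.compact_support
    have h1 := congrArg Subtype.val
      (iso_zero hΩ hP (⟨⟨φ.1, h⟩, φ.2⟩ : {φ : SuppIn Ω K // Good P φ.1}))
    exact h1
  · intro φ
    refine Subtype.ext ?_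
    obtain ⟨K, hK, h⟩ := φ.1.compact_support
    have h1 := congrArg Subtype.val
      (iso_one hΩ hP (⟨⟨φ.1, h⟩, φ.2⟩ : {φ : SuppIn Ω K // Good P φ.1}))
    exact h1

end Pool.Agent.Helper546_sympct
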