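import Pool.Agent.Helper546_sympct.Iso

/-!
# The set of symplectomorphisms with the spectral condition is open
-/

set_option autoImplicit false
set_option linter.unusedSectionVars false

open Set Filter Topology
open scoped ContDiff unitInterval

noncomputable section

namespace Pool.Agent.Helper546_sympct

variable {V : Type} [NormedAddCommGroup V] [NormedSpace ℝ V] {Ω : V → V → ℝ}
variable [FiniteDimensional ℝ V]

/-- the set of linear maps without real eigenvalues `≤ -1` is open -/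
theorem eventually_noEig {A₀ : V →L[ℝ] V} (h : ∀ c : ℝ, c ≤ -1 → ∀ v, A₀ v = c • v → v = 0) :
    ∀ᶠ A : V →L[ℝ] V in 𝓝 A₀, ∀ c : ℝ, c ≤ -1 → ∀ v, A v = c • v → v = 0 := by
  have : ProperSpace V := FiniteDimensional.proper ℝ _
  set C : ℝ := ‖A₀‖ + 1 with hC
  have hS : IsCompact (Icc (-C) (-1) ×ˢ Metric.sphere (0 : V) 1) :=
    isCompact_Icc.prod (isCompact_sphere _ _)
  have h1 : ∀ᶠ A : V →L[ℝ] V in 𝓝 A₀, ∀ q ∈ Icc (-C) (-1) ×ˢ Metric.sphere (0 : V) 1,
      A q.2 ≠ q.1 • q.2 := by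
    refine hS.eventually_forall_of_forall_eventually
      (P := fun (A : V →L[ℝ] V) (q : ℝ × V) => A q.2 ≠ q.1 • q.2) ?_
    rintro ⟨c, v⟩ ⟨hc, hv⟩
    have hne : A₀ v ≠ c • v := by
      intro he
      have := h c hc.2 v he
      rw [this] at hv
      simp at hv
    have hcont : Continuous fun z : (V →L[ℝ] V) × (ℝ × V) => (z.1 z.2.2, z.2.1 • z.2.2) := by
      fun_prop
    have hopen : IsOpen {q : V × V | q.1 ≠ q.2} := isOpen_ne_fun continuous_fst continuous_snd
    have hca : ContinuousAt (fun z : (V →L[ℝ] V) × (ℝ × V) =>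
      (z.1 z.2.2, z.2.1 • z.2.2)) (A₀, (c, v)) := hcont.continuousAt
    exact hca.preimage_mem_nhds (hopen.mem_nhds hne)
  have h2 : ∀ᶠ A : V →L[ℝ] V in 𝓝 A₀, ‖A‖ < C := by
    have hca : ContinuousAt (fun A : V →L[ℝ] V => ‖A‖) A₀ := continuous_norm.continuousAt
    exact hca.preimage_mem_nhds (isOpen_Iio.mem_nhds (by simp [hC]))
  filter_upwards [h1, h2] with A hA1 hA2 c hc v hv
  by_contra hv0
  have hpos : 0 < ‖v‖ := norm_pos_iff.2 hv0
  have h3 : ‖A v‖ = |c| * ‖v‖ := by rw [hv, norm_smul, Real.norm_eq_abs]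
  have h4 : |c| * ‖v‖ ≤ ‖A‖ * ‖v‖ := by
    rw [← h3]
    exact A.le_opNorm v
  have h5 : |c| ≤ ‖A‖ := le_of_mul_le_mul_right h4 hpos
  have h6 : c ∈ Icc (-C) (-1) := ⟨by
    have := neg_abs_le c
    linarith, hc⟩
  have h7 : (‖v‖⁻¹ • v) ∈ Metric.sphere (0 : V) 1 := by
    rw [mem_sphere_zero_iff_norm, norm_smul, norm_inv, norm_norm, inv_mul_cancel₀ hpos.ne']
  refine hA1 (c, ‖v‖⁻¹ • v) ⟨h6, h7⟩ ?_
  show A (‖v‖⁻¹ • v) = c • (‖v‖⁻¹ • v)
  rw [map_smul, hv, smul_comm]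

theorem fderiv_out {K : Set V} (hK : IsCompact K) (φ : SuppIn Ω K) {z : V} (hz : z ∉ K) :
    fderiv ℝ φ.1.toEquiv z = ContinuousLinearMap.id ℝ _ := by
  have h1 : (φ.1.toEquiv : V → V) =ᶠ[𝓝 z] id := by
    filter_upwards [hK.isClosed.isOpen_compl.mem_nhds hz] with y hy using φ.2 y hy
  rw [h1.fderiv_eq, fderiv_id]

theorem isOpen_good (P : V →L[ℝ] V) {K : Set V} (hK : IsCompact K) :
    IsOpen {φ : SuppIn Ω K | Good P φ.1} := by
  rw [isOpen_iff_eventually]
  intro φ₀ hφ₀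
  have hfam := cfam_taut (Ω := Ω) K 1
  rw [cfam_succ_iff] at hfam
  have hcont0 : Continuous fun p : SuppIn Ω K × V => fderiv ℝ p.1.1.toEquiv p.2 :=
    hfam.2.2.continuous
  have hcont : Continuous fun p : SuppIn Ω K × V =>
      P.comp (fderiv ℝ p.1.1.toEquiv p.2 - ContinuousLinearMap.id ℝ V) := by
    have h1 : Continuous fun A : V →L[ℝ] V => P.comp (A - ContinuousLinearMap.id ℝ V) :=
      ((ContinuousLinearMap.compL ℝ V V V P).continuous).comp
        (continuous_id.sub continuous_const)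
    exact h1.comp hcont0
  have h1 : ∀ᶠ φ : SuppIn Ω K in 𝓝 φ₀, ∀ z ∈ K, ∀ c : ℝ, c ≤ -1 → ∀ v,
      (P.comp (fderiv ℝ φ.1.toEquiv z - ContinuousLinearMap.id ℝ V)) v = c • v → v = 0 := by
    refine hK.eventually_forall_of_forall_eventually (P := fun (φ : SuppIn Ω K) (z : V) =>
      ∀ c : ℝ, c ≤ -1 → ∀ v,
        (P.comp (fderiv ℝ φ.1.toEquiv z - ContinuousLinearMap.id ℝ V)) v = c • v → v = 0) ?_
    intro z _
    have hca : ContinuousAt (fun p : SuppIn Ω K × V =>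
      P.comp (fderiv ℝ p.1.1.toEquiv p.2 - ContinuousLinearMap.id ℝ V)) (φ₀, z) :=
      hcont.continuousAt
    exact hca.eventually (eventually_noEig (fun c hc v hv => hφ₀ z c hc v hv))
  filter_upwards [h1] with φ hφ
  intro z c hc v hv
  by_cases hz : z ∈ K
  · exact hφ z hz c hc v hv
  · rw [fderiv_out hK φ hz] at hv
    simp only [ContinuousLinearMap.id_apply, sub_self, map_zero] at hv
    rcases smul_eq_zero.1 hv.symm with h | h
    · linarith
    · exact h

end Pool.Agent.Helper546_sympct
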